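import Pool.Agent.W402.HI.Defs

/-!
# HI-E2: the finite perturbation determinant
-/

set_option autoImplicit false
set_option linter.all false

open Filter Topology MeasureTheory Metric Pool.Agent.W402.HI

namespace Pool.Agent.W366.HI

section aux

variable {X : Type} [NormedAddCommGroup X] [NormedSpace ℂ X] [CompleteSpace X]

lemma res_mul {S : X →L[ℂ] X} {z : ℂ} (hz : z ∈ resolventSet ℂ S) :
    resolvent S z * (algebraMap ℂ (X →L[ℂ] X) z - S) = 1 :=
  Ring.inverse_mul_cancel _ (spectrum.mem_resolventSet_iff.1 hz)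

lemma mul_res {S : X →L[ℂ] X} {z : ℂ} (hz : z ∈ resolventSet ℂ S) :
    (algebraMap ℂ (X →L[ℂ] X) z - S) * resolvent S z = 1 :=
  Ring.mul_inverse_cancel _ (spectrum.mem_resolventSet_iff.1 hz)

/-- the two resolvent identities -/
lemma res_id {S G : X →L[ℂ] X} {z : ℂ} (h1 : z ∈ resolventSet ℂ S)
    (h2 : z ∈ resolventSet ℂ (S + G)) :
    resolvent (S + G) z = resolvent S z + resolvent S z * G * resolvent (S + G) z ∧
    resolvent (S + G) z = resolvent S z + resolvent (S + G) z * G * resolvent S z := by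
  have a1 := res_mul h1
  have a2 := mul_res h1
  have b1 := res_mul h2
  have b2 := mul_res h2
  set R := resolvent S z
  set T := resolvent (S + G) z
  set Z := algebraMap ℂ (X →L[ℂ] X) z
  constructor
  · have : R * ((Z - S) - (Z - (S + G))) * T = T - R := by
      rw [mul_sub, sub_mul, a1, one_mul, mul_assoc, b2, mul_one]
    have e : (Z - S) - (Z - (S + G)) = G := by abel
    rw [e] at this
    rw [this]; abel
  · have : T * ((Z - S) - (Z - (S + G))) * R = T - R := by
      rw [mul_sub, sub_mul, mul_assoc, a2, mul_one, b1, one_mul]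
    have e : (Z - S) - (Z - (S + G)) = G := by abel
    rw [e] at this
    rw [this]; abel

end aux

theorem main (h : P_E1) : P_E2 := by
  intro X _ _ _ S G m B U hB hU hfin hrank hG hR
  set F : Submodule ℂ X := LinearMap.range (G : X →ₗ[ℂ] X) with hF
  haveI : FiniteDimensional ℂ F := hfin
  set ι : F →L[ℂ] X := F.subtypeL with hι
  set G' : X →L[ℂ] F := G.codRestrict F (fun x => ⟨x, rfl⟩) with hG'
  have hιG : ι.comp G' = G := by ext x; rfl
  have hιn : ‖ι‖ ≤ 1 := Submodule.norm_subtypeL_le F
  have hB0 : 0 ≤ B := zero_le_one.trans hB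
  have hG'n : ‖G'‖ ≤ B := by
    refine ContinuousLinearMap.opNorm_le_bound _ hB0 fun x => ?_
    have h1 : ‖G' x‖ = ‖G x‖ := rfl
    rw [h1]
    exact (G.le_opNorm x).trans (mul_le_mul_of_nonneg_right hG (norm_nonneg _))
  set M : ℂ → (F →L[ℂ] F) := fun z => G'.comp ((resolvent S z).comp ι) with hM
  have hcomp : ∀ Q : X →L[ℂ] X, ‖G'.comp (Q.comp ι)‖ ≤ B * ‖Q‖ := by
    intro Q
    refine (ContinuousLinearMap.opNorm_comp_le _ _).trans ?_
    have h1 : ‖Q.comp ι‖ ≤ ‖Q‖ * 1 :=
      (ContinuousLinearMap.opNorm_comp_le _ _).trans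
        (mul_le_mul_of_nonneg_left hιn (norm_nonneg _))
    rw [mul_one] at h1
    exact mul_le_mul hG'n h1 (norm_nonneg _) hB0
  have hMn : ∀ z ∈ U, ‖M z‖ ≤ B ^ 2 := by
    intro z hz
    refine (hcomp _).trans ?_
    rw [pow_two]
    exact mul_le_mul_of_nonneg_left (hR z hz).2 hB0
  have hone : ‖(1 : F →L[ℂ] F)‖ ≤ 1 := ContinuousLinearMap.norm_id_le
  have h1M : ∀ z ∈ U, ‖1 - M z‖ ≤ 1 + B ^ 2 := by
    intro z hz
    refine (norm_sub_le (1 : F →L[ℂ] F) (M z)).trans ?_
    exact add_le_add hone (hMn z hz)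
  set f : ℂ → ℂ := fun z => LinearMap.det ((1 - M z : F →L[ℂ] F) : F →ₗ[ℂ] F) with hf
  have hrk : Module.finrank ℂ F ≤ m := hrank
  refine ⟨f, ?_, ?_, ?_⟩
  · -- differentiability
    have hMd : DifferentiableOn ℂ M U := by
      intro z hz
      have h1 : DifferentiableAt ℂ (resolvent S) z :=
        (spectrum.hasDerivAt_resolvent (hR z hz).1).differentiableAt
      have h2 : DifferentiableAt ℂ M z :=
        (differentiableAt_const G').clm_comp (h1.clm_comp (differentiableAt_const ι))
      exact h2.differentiableWithinAt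
    set b := Module.finBasis ℂ F with hb
    have hentry : ∀ i j, DifferentiableOn ℂ (fun z =>
        LinearMap.toMatrix b b ((1 - M z : F →L[ℂ] F) : F →ₗ[ℂ] F) i j) U := by
      intro i j
      have h1 : (fun z => LinearMap.toMatrix b b ((1 - M z : F →L[ℂ] F) : F →ₗ[ℂ] F) i j) =
          fun z => (LinearMap.toContinuousLinearMap (b.coord i)) ((1 - M z) (b j)) := by
        funext z
        rw [LinearMap.toMatrix_apply]
        rfl
      rw [h1]
      have h2 : DifferentiableOn ℂ (fun z => (1 - M z) (b j)) U :=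
        ((differentiableOn_const _).sub hMd).clm_apply (differentiableOn_const _)
      exact (LinearMap.toContinuousLinearMap (b.coord i)).differentiable.comp_differentiableOn h2
    have h2 : f = fun z => ∑ σ : Equiv.Perm (Fin (Module.finrank ℂ F)),
        (Equiv.Perm.sign σ : ℤ) • ∏ i,
          LinearMap.toMatrix b b ((1 - M z : F →L[ℂ] F) : F →ₗ[ℂ] F) (σ i) i := by
      funext z
      rw [hf]
      simp only
      rw [← LinearMap.det_toMatrix b, Matrix.det_apply]
      rfl
    rw [h2]
    refine DifferentiableOn.fun_sum fun σ _ => ?_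
    refine DifferentiableOn.const_smul ?_ _
    exact DifferentiableOn.fun_finsetProd fun i _ => hentry _ _
  · intro z hz
    refine ((h F (1 - M z)).1).trans ?_
    refine (pow_le_pow_left₀ (norm_nonneg _) (h1M z hz) _).trans ?_
    exact pow_le_pow_right₀ (by nlinarith) hrk
  · intro z hz hzT
    obtain ⟨hzS, hRz⟩ := hR z hz
    obtain ⟨i1, i2⟩ := res_id hzS hzT
    set R := resolvent S z with hRdef
    set T := resolvent (S + G) z with hTdef
    have hGc : ∀ P Q : X →L[ℂ] X, P * G * Q = (P.comp ι).comp (G'.comp Q) := by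
      intro P Q
      rw [← hιG]; rfl
    -- inverse of `1 - M z`
    set W : F →L[ℂ] F := 1 + G'.comp (T.comp ι) with hW
    have hleft : (1 - M z) * W = 1 := by
      have e : G'.comp (T.comp ι) = G'.comp (R.comp ι) +
          (G'.comp (R.comp ι)) * (G'.comp (T.comp ι)) := by
        conv_lhs => rw [i1]
        rw [hGc]
        ext x
        simp only [ContinuousLinearMap.comp_apply, ContinuousLinearMap.add_apply, map_add]
        rfl
      rw [hW]
      have e2 : (1 - M z) * (1 + G'.comp (T.comp ι)) =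
          1 + (G'.comp (T.comp ι) - (M z + M z * G'.comp (T.comp ι))) := by
        rw [mul_add, mul_one, sub_mul, one_mul]
        abel
      rw [e2]
      have e3 : M z = G'.comp (R.comp ι) := rfl
      rw [e3, ← e, sub_self, add_zero]
    have hdet : f z * LinearMap.det ((W : F →L[ℂ] F) : F →ₗ[ℂ] F) = 1 := by
      have h1 : (((1 - M z) * W : F →L[ℂ] F) : F →ₗ[ℂ] F) =
          ((1 - M z : F →L[ℂ] F) : F →ₗ[ℂ] F) * ((W : F →L[ℂ] F) : F →ₗ[ℂ] F) := rfl
      have h2 := congrArg LinearMap.det h1
      rw [map_mul, hleft] at h2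
      rw [hf]
      simp only
      rw [← h2]
      exact LinearMap.det_id
    have hf0 : f z ≠ 0 := left_ne_zero_of_mul_eq_one hdet
    have hfp : 0 < ‖f z‖ := norm_pos_iff.2 hf0
    refine ⟨hf0, ?_, ?_⟩
    · have h1 : (f z)⁻¹ = LinearMap.det ((W : F →L[ℂ] F) : F →ₗ[ℂ] F) :=
        inv_eq_of_mul_eq_one_right hdet
      rw [← norm_inv, h1]
      refine ((h F W).1).trans ?_
      have h2 : ‖W‖ ≤ 1 + B * ‖T‖ := by
        refine (norm_add_le (1 : F →L[ℂ] F) (G'.comp (T.comp ι))).trans ?_
        exact add_le_add hone (hcomp T)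
      refine (pow_le_pow_left₀ (norm_nonneg _) h2 _).trans ?_
      exact pow_le_pow_right₀ (by nlinarith [norm_nonneg T]) hrk
    · obtain ⟨N', hN1, hN2, hN3⟩ := (h F (1 - M z)).2 hf0
      have e1 : (1 - M z) * (1 - M z) = (1 - M z) * (1 - M z) := rfl
      have e2 : (1 - M z).comp (G'.comp T) = G'.comp R := by
        have e : G'.comp T = G'.comp R + (G'.comp (R.comp ι)).comp (G'.comp T) := by
          conv_lhs => rw [i1]
          rw [hGc]
          ext x
          simp only [ContinuousLinearMap.comp_apply, ContinuousLinearMap.add_apply, map_add]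
        have e4 : (1 - M z).comp (G'.comp T) = G'.comp T - (M z).comp (G'.comp T) := by
          ext x
          simp only [ContinuousLinearMap.comp_apply, ContinuousLinearMap.sub_apply,
            ContinuousLinearMap.one_apply]
        rw [e4]
        have e3 : M z = G'.comp (R.comp ι) := rfl
        rw [e3]
        nth_rewrite 1 [e]
        abel
      have e3 : G'.comp T = N'.comp (G'.comp R) := by
        rw [← e2]
        have : N'.comp ((1 - M z).comp (G'.comp T)) = (N' * (1 - M z)).comp (G'.comp T) := rfl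
        rw [this, hN1]
        ext x
        simp only [ContinuousLinearMap.comp_apply, ContinuousLinearMap.one_apply]
      have e4 : T = R + (R.comp ι).comp (N'.comp (G'.comp R)) := by
        rw [← e3, ← hGc]
        exact i1
      have hN' : ‖N'‖ ≤ 2 ^ m * (2 + B ^ 2) ^ m / ‖f z‖ := by
        refine hN3.trans ?_
        refine div_le_div_of_nonneg_right ?_ hfp.le
        have h5 : (2 : ℝ) ^ Module.finrank ℂ F ≤ 2 ^ m := pow_le_pow_right₀ (by norm_num) hrk
        have h6 : (1 + ‖1 - M z‖) ^ Module.finrank ℂ F ≤ (2 + B ^ 2) ^ m := by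
          refine (pow_le_pow_left₀ (by positivity) (show 1 + ‖1 - M z‖ ≤ 2 + B ^ 2 by
            linarith [h1M z hz]) _).trans ?_
          exact pow_le_pow_right₀ (by nlinarith) hrk
        exact mul_le_mul h5 h6 (by positivity) (by positivity)
      have hb1 : ‖(R.comp ι).comp (N'.comp (G'.comp R))‖ ≤ B * (‖N'‖ * (B * B)) := by
        refine (ContinuousLinearMap.opNorm_comp_le _ _).trans ?_
        have g1 : ‖R.comp ι‖ ≤ B := by
          refine (ContinuousLinearMap.opNorm_comp_le _ _).trans ?_
          calc ‖R‖ * ‖ι‖ ≤ B * 1 := mul_le_mul hRz hιn (ContinuousLinearMap.opNorm_nonneg _) hB0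
            _ = B := mul_one _
        have g2 : ‖G'.comp R‖ ≤ B * B :=
          (ContinuousLinearMap.opNorm_comp_le _ _).trans
            (mul_le_mul hG'n hRz (ContinuousLinearMap.opNorm_nonneg _) hB0)
        have g3 : ‖N'.comp (G'.comp R)‖ ≤ ‖N'‖ * (B * B) :=
          (ContinuousLinearMap.opNorm_comp_le _ _).trans
            (mul_le_mul_of_nonneg_left g2 (norm_nonneg _))
        exact mul_le_mul g1 g3 (ContinuousLinearMap.opNorm_nonneg _) hB0
      calc ‖T‖ = ‖R + (R.comp ι).comp (N'.comp (G'.comp R))‖ := by rw [← e4]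
        _ ≤ ‖R‖ + ‖(R.comp ι).comp (N'.comp (G'.comp R))‖ := norm_add_le _ _
        _ ≤ B + B * (‖N'‖ * (B * B)) := add_le_add hRz hb1
        _ ≤ B + B * ((2 ^ m * (2 + B ^ 2) ^ m / ‖f z‖) * (B * B)) := by gcongr
        _ = B + B ^ 3 * (2 ^ m * (2 + B ^ 2) ^ m) / ‖f z‖ := by ring

end Pool.Agent.W366.HI
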